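import Pool.Agent.Q282.TW.Stm

/-!
# Quadratic Gauss sums over products of finite fields
-/

set_option autoImplicit false
set_option linter.unusedSectionVars false

namespace Pool.Agent.Q275.TW

open Finset

section one

variable {F : Type} [Field F] [Fintype F] [DecidableEq F]

lemma sum_char_zero (hF : ringChar F ≠ 2) : ∑ a : F, ((quadraticChar F a : ℤ) : ℂ) = 0 := by
  rw [← Int.cast_sum, quadraticChar_sum_zero hF, Int.cast_zero]

lemma one_shift (hF : ringChar F ≠ 2) (e : AddChar F ℂ) (v : F) :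
    ∑ a : F, ((quadraticChar F a : ℤ) : ℂ) * e (v * a) =
      ((quadraticChar F v : ℤ) : ℂ) * ∑ a : F, ((quadraticChar F a : ℤ) : ℂ) * e a := by
  by_cases hv : v = 0
  · subst hv
    simp only [zero_mul, AddChar.map_zero_eq_one, mul_one, quadraticChar_zero, Int.cast_zero]
    exact sum_char_zero hF
  · have h1 : ((quadraticChar F v : ℤ) : ℂ) * ((quadraticChar F v : ℤ) : ℂ) = 1 := by
      rw [← Int.cast_mul, ← sq, quadraticChar_sq_one hv, Int.cast_one]
    rw [mul_sum]
    refine Fintype.sum_equiv (Equiv.mulLeft₀ v hv) _ _ (fun a => ?_)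
    have h2 : quadraticChar F (v * a) = quadraticChar F v * quadraticChar F a :=
      map_mul (quadraticChar F) v a
    rw [Equiv.mulLeft₀_apply]
    simp only
    rw [h2, Int.cast_mul, ← mul_assoc, ← mul_assoc, h1, one_mul]

lemma one_sq (hF : ringChar F ≠ 2) (e : AddChar F ℂ) (he : e ≠ 1) :
    ∑ a : F, e (a * a) = ∑ a : F, ((quadraticChar F a : ℤ) : ℂ) * e a := by
  have h0 : ∑ a : F, e a = 0 := AddChar.sum_eq_zero_of_ne_one he
  have h1 : ∑ a : F, e (a * a) = ∑ x : F, ∑ a ∈ univ.filter (fun a : F => a ^ 2 = x), e x := by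
    rw [← Finset.sum_fiberwise_of_maps_to (s := univ) (t := univ) (g := fun a : F => a ^ 2)
      (fun _ _ => mem_univ _)]
    refine sum_congr rfl fun x _ => sum_congr rfl fun a ha => ?_
    rw [mem_filter] at ha
    rw [← ha.2, sq]
  have h2 : ∀ x : F, ∑ a ∈ univ.filter (fun a : F => a ^ 2 = x), e x =
      (((quadraticChar F x : ℤ) : ℂ) + 1) * e x := by
    intro x
    rw [sum_const, nsmul_eq_mul]
    congr 1
    have h3 := quadraticChar_card_sqrts hF x
    have h4 : {a : F | a ^ 2 = x}.toFinset = univ.filter (fun a : F => a ^ 2 = x) := by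
      ext a; simp
    rw [h4] at h3
    exact_mod_cast h3
  rw [h1, sum_congr rfl fun x _ => h2 x]
  simp only [add_mul, one_mul, sum_add_distrib, h0, add_zero]

end one

section prod

variable {ι : Type} [Fintype ι] [DecidableEq ι] {F : ι → Type} [∀ i, Field (F i)]
  [∀ i, Fintype (F i)] [∀ i, DecidableEq (F i)]

/-- the product of the quadratic characters -/
noncomputable def chi (z : ∀ i, F i) : ℂ := ∏ i, ((quadraticChar (F i) (z i) : ℤ) : ℂ)

/-- the restriction of an additive character -/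
noncomputable def res (e : AddChar (∀ i, F i) ℂ) (i : ι) : AddChar (F i) ℂ :=
  e.compAddMonoidHom (AddMonoidHom.single F i)

lemma map_sum' {A κ : Type} [AddCommMonoid A] (e : AddChar A ℂ) (s : Finset κ) (f : κ → A) :
    e (∑ i ∈ s, f i) = ∏ i ∈ s, e (f i) := by
  classical
  induction s using Finset.induction_on with
  | empty => rw [sum_empty, prod_empty, AddChar.map_zero_eq_one]
  | insert a s ha ih => rw [sum_insert ha, prod_insert ha, AddChar.map_add_eq_mul, ih]

lemma e_prod (e : AddChar (∀ i, F i) ℂ) (z : ∀ i, F i) : e z = ∏ i, res e i (z i) := by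
  conv_lhs => rw [← Finset.univ_sum_single z]
  rw [map_sum']
  rfl

lemma sum_prod (f : ∀ i, F i → ℂ) : ∑ z : ∀ i, F i, ∏ i, f i (z i) = ∏ i, ∑ a, f i a := by
  rw [Finset.prod_univ_sum, Fintype.piFinset_univ]

theorem gauss (hF : ∀ i, ringChar (F i) ≠ 2) (e : AddChar (∀ i, F i) ℂ)
    (he : ∀ i, ∃ a, e (Pi.single i a) ≠ 1) (v : ∀ i, F i) :
    ∑ z : ∀ i, F i, chi z * e (v * z) = chi v * ∑ y : ∀ i, F i, e (y * y) := by
  have h1 : ∀ z : ∀ i, F i, chi z * e (v * z) =
      ∏ i, (((quadraticChar (F i) (z i) : ℤ) : ℂ) * res e i (v i * z i)) := by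
    intro z
    rw [e_prod, chi, ← prod_mul_distrib]
    rfl
  have h2 : ∀ y : ∀ i, F i, e (y * y) = ∏ i, res e i (y i * y i) := by
    intro y
    rw [e_prod]
    rfl
  have h3 : ∀ i, res e i ≠ 1 := by
    intro i h
    obtain ⟨a, ha⟩ := he i
    apply ha
    have := DFunLike.congr_fun h a
    exact this
  rw [sum_congr rfl fun z _ => h1 z, sum_congr rfl fun y _ => h2 y,
    sum_prod (fun i a => ((quadraticChar (F i) a : ℤ) : ℂ) * res e i (v i * a)),
    sum_prod (fun i a => res e i (a * a)), chi, ← prod_mul_distrib]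
  refine prod_congr rfl fun i _ => ?_
  rw [one_shift (hF i), one_sq (hF i) _ (h3 i)]

end prod

/-- the absolute value of the quadratic Gauss sum -/
lemma norm_gauss {k : Type} [Field k] [Fintype k] (h2 : (2 : k) ≠ 0) (ψ : AddChar k ℂ)
    (hψ : ψ.IsPrimitive) : ‖∑ t : k, ψ (t * t)‖ = Real.sqrt (Fintype.card k) := by
  classical
  have h : (∑ t : k, ψ (t * t)) * (starRingEnd ℂ) (∑ t : k, ψ (t * t)) = (Fintype.card k : ℂ) := by
    rw [map_sum, mul_comm, sum_mul_sum]
    have e1 : ∀ b : k, ∑ a : k, (starRingEnd ℂ) (ψ (b * b)) * ψ (a * a) =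
        ∑ u : k, ψ (u * u) * ψ (b * (2 * u)) := by
      intro b
      refine Fintype.sum_equiv (Equiv.subRight b) _ _ (fun a => ?_)
      rw [← AddChar.map_neg_eq_conj, ← AddChar.map_add_eq_mul, ← AddChar.map_add_eq_mul,
        Equiv.subRight_apply]
      congr 1
      ring
    rw [sum_congr rfl fun b _ => e1 b, sum_comm]
    have e2 : ∀ u : k, ∑ b : k, ψ (u * u) * ψ (b * (2 * u)) =
        if u = 0 then (Fintype.card k : ℂ) else 0 := by
      intro u
      rw [← mul_sum, AddChar.sum_mulShift (2 * u) hψ]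
      by_cases hu : u = 0
      · subst hu
        simp
      · rw [if_neg (mul_ne_zero h2 hu), if_neg hu]
        simp
    rw [sum_congr rfl fun u _ => e2 u]
    simp
  have h3 : (‖∑ t : k, ψ (t * t)‖ : ℂ) ^ 2 = (Fintype.card k : ℂ) := by
    rw [← h, Complex.mul_conj, Complex.normSq_eq_norm_sq]
    push_cast
    rfl
  have h4 : ‖∑ t : k, ψ (t * t)‖ ^ 2 = (Fintype.card k : ℝ) := by exact_mod_cast h3
  rw [← h4, Real.sqrt_sq (norm_nonneg _)]

end Pool.Agent.Q275.TW
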