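import Pool.Agent.Q275.TW.A

/-!
# Poisson summation on a quotient of `k[X]`
-/

set_option autoImplicit false
set_option linter.unusedSectionVars false

namespace Pool.Agent.Q275.TW

open Finset Polynomial Q282TW

section polys

variable {k : Type} [Field k]

lemma pol_coeff {n : ℕ} (c : Fin n → k) (i : ℕ) :
    (pol c).coeff i = if h : i < n then c ⟨i, h⟩ else 0 := by
  unfold pol
  rw [finsetSum_coeff]
  simp only [coeff_C_mul_X_pow]
  split_ifs with h
  · rw [Finset.sum_eq_single ⟨i, h⟩]
    · simp
    · intro b _ hb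
      rw [if_neg]
      intro h1
      apply hb
      exact Fin.ext h1.symm
    · intro h1
      exact absurd (mem_univ _) h1
  · apply Finset.sum_eq_zero
    intro b _
    rw [if_neg]
    intro h1
    exact h (h1 ▸ b.2)

lemma pol_degree {n : ℕ} (c : Fin n → k) : (pol c).degree < n := by
  rw [degree_lt_iff_coeff_zero]
  intro i hi
  rw [pol_coeff, dif_neg (by omega)]

lemma pol_add {n : ℕ} (c d : Fin n → k) : pol (c + d) = pol c + pol d := by
  ext i
  rw [coeff_add, pol_coeff, pol_coeff, pol_coeff]
  split_ifs <;> simp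

lemma pol_zero {n : ℕ} : pol (0 : Fin n → k) = 0 := by
  ext i
  rw [pol_coeff, coeff_zero]
  split_ifs <;> simp

lemma pol_of_degree {n : ℕ} (A : k[X]) (hA : A.degree < n) :
    pol (fun i : Fin n => A.coeff i) = A := by
  ext i
  rw [pol_coeff]
  split_ifs with h
  · rfl
  · rw [degree_lt_iff_coeff_zero] at hA
    exact (hA i (by omega)).symm

lemma mul_deg {a b : ℕ} {A B : k[X]} (hA : A.degree < a) (hB : B.degree < b) :
    (A * B).degree < (a + b : ℕ) ∧ ∀ j, a + b ≤ j + 1 → (A * B).coeff j = 0 := by
  by_cases hA0 : A = 0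
  · subst hA0
    rw [zero_mul]
    refine ⟨?_, fun j _ => coeff_zero j⟩
    rw [degree_zero]
    exact WithBot.bot_lt_coe _
  by_cases hB0 : B = 0
  · subst hB0
    rw [mul_zero]
    refine ⟨?_, fun j _ => coeff_zero j⟩
    rw [degree_zero]
    exact WithBot.bot_lt_coe _
  have h1 : A.natDegree < a := (natDegree_lt_iff_degree_lt hA0).mpr hA
  have h2 : B.natDegree < b := (natDegree_lt_iff_degree_lt hB0).mpr hB
  have h3 : (A * B).natDegree = A.natDegree + B.natDegree := natDegree_mul hA0 hB0
  refine ⟨?_, fun j hj => ?_⟩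
  · rw [← natDegree_lt_iff_degree_lt (mul_ne_zero hA0 hB0), h3]
    omega
  · apply coeff_eq_zero_of_natDegree_lt
    rw [h3]
    omega

end polys

section abs

variable {k : Type} [Field k] [Fintype k] {R : Type} [CommRing R] [Fintype R] (π : k[X] →+* R)
  {m : ℕ} (hm : 0 < m) (hbij : Function.Bijective (fun c : Fin m → k => π (pol c)))
  (ψ : AddChar k ℂ)

/-- coordinates -/
noncomputable def EE : (Fin m → k) ≃+ R :=
  AddEquiv.ofBijective (AddMonoidHom.mk' (fun c : Fin m → k => π (pol c))
    (fun c d => by rw [pol_add, map_add])) hbij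

lemma EE_apply (c : Fin m → k) : EE π hbij c = π (pol c) := rfl

/-- the additive character -/
noncomputable def eR : AddChar R ℂ :=
  ψ.compAddMonoidHom ((Pi.evalAddMonoidHom (fun _ : Fin m => k) ⟨m - 1, by omega⟩).comp
    (EE π hbij).symm.toAddMonoidHom)

lemma eR_pi (A : k[X]) (hA : A.degree < m) : eR π hm hbij ψ (π A) = ψ (A.coeff (m - 1)) := by
  have h1 : (EE π hbij).symm (π A) = fun i : Fin m => A.coeff i := by
    rw [AddEquiv.symm_apply_eq, EE_apply, pol_of_degree A hA]
  have h2 : eR π hm hbij ψ (π A) = ψ ((EE π hbij).symm (π A) ⟨m - 1, by omega⟩) := rfl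
  rw [h2, h1]

variable {ψ} (hψ : ∃ c, ψ c ≠ 1)

include hψ in
lemma orth (a n : ℕ) (h : a + n = m) (Y : k[X]) (hY : Y.degree < m) :
    ∑ V : Fin a → k, eR π hm hbij ψ (π (pol V) * π Y) =
      if Y.degree < n then (Fintype.card k : ℂ) ^ a else 0 := by
  classical
  split_ifs with hn
  · have h1 : ∀ V : Fin a → k, eR π hm hbij ψ (π (pol V) * π Y) = 1 := by
      intro V
      have h2 := mul_deg (pol_degree V) hn
      rw [← map_mul, eR_pi π hm hbij ψ _ (by rw [← h]; exact h2.1), h2.2 _ (by omega),
        AddChar.map_zero_eq_one]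
    rw [sum_congr rfl fun V _ => h1 V]
    simp
  · have hY0 : Y ≠ 0 := by
      rintro rfl
      apply hn
      rw [degree_zero]
      exact WithBot.bot_lt_coe _
    have hd1 : Y.natDegree < m := (natDegree_lt_iff_degree_lt hY0).mpr hY
    have hd2 : n ≤ Y.natDegree := by
      by_contra hcon
      exact hn ((natDegree_lt_iff_degree_lt hY0).mp (by omega))
    set d := Y.natDegree with hd
    obtain ⟨c, hc⟩ := hψ
    let θ : AddChar (Fin a → k) ℂ := (eR π hm hbij ψ).compAddMonoidHom
      (AddMonoidHom.mk' (fun V : Fin a → k => π (pol V) * π Y)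
        (fun V W => by rw [pol_add, map_add, add_mul]))
    have hθ : θ ≠ 1 := by
      intro h1
      have h2 := DFunLike.congr_fun h1
        (fun i : Fin a => if (i : ℕ) = m - 1 - d then c / Y.leadingCoeff else 0)
      have h3 : pol (fun i : Fin a => if (i : ℕ) = m - 1 - d then c / Y.leadingCoeff else 0) =
          C (c / Y.leadingCoeff) * X ^ (m - 1 - d) := by
        ext i
        rw [pol_coeff, coeff_C_mul_X_pow]
        split_ifs with h4 h5 h5
        · rfl
        · rfl
        · exfalso
          omega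
        · rfl
      have h4 : θ (fun i : Fin a => if (i : ℕ) = m - 1 - d then c / Y.leadingCoeff else 0) =
          eR π hm hbij ψ (π (pol (fun i : Fin a => if (i : ℕ) = m - 1 - d then
            c / Y.leadingCoeff else 0)) * π Y) := rfl
      rw [h4, h3, ← map_mul, eR_pi] at h2
      · apply hc
        rw [AddChar.one_apply] at h2
        rw [← h2]
        congr 1
        rw [mul_assoc, coeff_C_mul, mul_comm (X ^ (m - 1 - d)), coeff_mul_X_pow', if_pos (by omega),
          show m - 1 - (m - 1 - d) = d by omega, hd, coeff_natDegree,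
          div_mul_cancel₀ _ (leadingCoeff_ne_zero.mpr hY0)]
      · refine lt_of_le_of_lt (degree_le_natDegree) ?_
        have h5 : (C (c / Y.leadingCoeff) * X ^ (m - 1 - d) * Y).natDegree ≤ m - 1 := by
          refine natDegree_mul_le.trans ?_
          have := natDegree_C_mul_X_pow_le (c / Y.leadingCoeff) (m - 1 - d)
          omega
        exact_mod_cast (by omega : (C (c / Y.leadingCoeff) * X ^ (m - 1 - d) * Y).natDegree < m)
    exact AddChar.sum_eq_zero_of_ne_one hθ

include hψ in
lemma expand (a n : ℕ) (h : a + n = m) (t : k) (ht : t ≠ 0) (f : R → ℂ) :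
    (Fintype.card k : ℂ) ^ a * ∑ c : Fin n → k, f (π (pol c)) =
      ∑ y : R, f y * ∑ V : Fin a → k, eR π hm hbij ψ (π (pol V) * (π (C t) * y)) := by
  classical
  have h1 : ∑ y : R, f y * ∑ V : Fin a → k, eR π hm hbij ψ (π (pol V) * (π (C t) * y)) =
      ∑ b : Fin m → k, f (π (pol b)) * (if (pol b).degree < n then (Fintype.card k : ℂ) ^ a
        else 0) := by
    symm
    refine Fintype.sum_equiv (EE π hbij).toEquiv _ _ (fun b => ?_)
    have h2 : (EE π hbij).toEquiv b = π (pol b) := rfl
    have h3 : (C t * pol b).degree = (pol b).degree := degree_C_mul ht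
    rw [h2, ← map_mul, orth π hm hbij hψ a n h (C t * pol b) (by rw [h3]; exact pol_degree b), h3]
  rw [h1]
  simp only [mul_ite, mul_zero]
  rw [← Finset.sum_filter, mul_sum]
  symm
  refine Finset.sum_nbij' (fun b (i : Fin n) => b ⟨i, by omega⟩)
    (fun c (i : Fin m) => if hi : (i : ℕ) < n then c ⟨i, hi⟩ else 0) (fun _ _ => mem_univ _) ?_ ?_ ?_ ?_
  · intro c _
    rw [mem_filter]
    refine ⟨mem_univ _, ?_⟩
    rw [degree_lt_iff_coeff_zero]
    intro i hi
    rw [pol_coeff]
    by_cases h2 : i < m
    · rw [dif_pos h2]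
      exact dif_neg (by simpa using hi)
    · rw [dif_neg h2]
  · intro b hb
    rw [mem_filter, degree_lt_iff_coeff_zero] at hb
    funext i
    simp only
    split_ifs with hi
    · rfl
    · have h2 := hb.2 i (by omega)
      rw [pol_coeff, dif_pos i.2] at h2
      exact h2.symm
  · intro c _
    funext i
    simp
  · intro b hb
    rw [mem_filter, degree_lt_iff_coeff_zero] at hb
    have h2 : pol b = pol (fun (i : Fin n) => b ⟨i, by omega⟩) := by
      ext i
      rw [pol_coeff, pol_coeff]
      by_cases hi : i < n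
      · rw [dif_pos hi, dif_pos (by omega)]
      · rw [dif_neg hi]
        have h3 := hb.2 i (by omega)
        rw [pol_coeff] at h3
        exact h3
    rw [h2, mul_comm]

/-- the Gauss sum of degree `m` -/
noncomputable def GG (ψ : AddChar k ℂ) (m : ℕ) : ℂ :=
  (Fintype.card k : ℂ) ^ (m / 2) * if Even m then 1 else ∑ t : k, ψ (t * t)

include hψ in
lemma gauss_sq (h2 : (2 : k) ≠ 0) : ∑ y : R, eR π hm hbij ψ (y * y) = GG ψ m := by
  classical
  set h := m / 2 with hh
  have hmn : h + (m - h) = m := by omega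
  have hq : (Fintype.card k : ℂ) ^ h ≠ 0 := by
    apply pow_ne_zero
    exact_mod_cast Fintype.card_ne_zero
  have h3 := expand π hm hbij hψ h (m - h) hmn 2 h2 (fun y => eR π hm hbij ψ (y * y))
  have h4 : ∑ y : R, eR π hm hbij ψ (y * y) *
      ∑ V : Fin h → k, eR π hm hbij ψ (π (pol V) * (π (C 2) * y)) =
      (Fintype.card k : ℂ) ^ h * ∑ y : R, eR π hm hbij ψ (y * y) := by
    simp only [mul_sum]
    rw [sum_comm]
    have h5 : ∀ V : Fin h → k, ∑ y : R, eR π hm hbij ψ (y * y) *
        eR π hm hbij ψ (π (pol V) * (π (C 2) * y)) = ∑ y : R, eR π hm hbij ψ (y * y) := by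
      intro V
      have h6 : eR π hm hbij ψ (π (pol V) * π (pol V)) = 1 := by
        have h7 := mul_deg (pol_degree V) (pol_degree V)
        rw [← map_mul, eR_pi π hm hbij ψ _ (lt_of_lt_of_le h7.1 (by
          exact_mod_cast (by omega : h + h ≤ m))), h7.2 _ (by omega), AddChar.map_zero_eq_one]
      refine Fintype.sum_equiv (Equiv.addRight (π (pol V))) _ _ (fun y => ?_)
      rw [Equiv.coe_addRight, ← AddChar.map_add_eq_mul]
      have h8 : (y + π (pol V)) * (y + π (pol V)) =
          (y * y + π (pol V) * (π (C 2) * y)) + π (pol V) * π (pol V) := by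
        have h9 : π (C 2) = 2 := by
          have : (C 2 : k[X]) = 2 := map_ofNat C 2
          rw [this, map_ofNat]
        rw [h9]; ring
      rw [h8, AddChar.map_add_eq_mul _ (y * y + _), h6, mul_one]
    rw [sum_congr rfl fun V _ => h5 V, sum_const, card_univ, Fintype.card_fun, Fintype.card_fin,
      nsmul_eq_mul, Nat.cast_pow, mul_sum]
  rw [h4] at h3
  rw [← mul_left_cancel₀ hq h3]
  unfold GG
  rcases Nat.even_or_odd m with hev | hodd
  · rw [if_pos hev, mul_one]
    obtain ⟨j, hj⟩ := hev
    have hmh : m - h = h := by omega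
    have h5 : ∀ c : Fin (m - h) → k, eR π hm hbij ψ (π (pol c) * π (pol c)) = 1 := by
      intro c
      have h7 := mul_deg (pol_degree c) (pol_degree c)
      rw [← map_mul, eR_pi π hm hbij ψ _ (lt_of_lt_of_le h7.1 (by
          exact_mod_cast (by omega : (m - h) + (m - h) ≤ m))), h7.2 _ (by omega),
          AddChar.map_zero_eq_one]
    rw [sum_congr rfl fun c _ => h5 c, sum_const, card_univ, Fintype.card_fun, Fintype.card_fin,
      hmh, nsmul_eq_mul, mul_one, Nat.cast_pow]
  · rw [if_neg (Nat.not_even_iff_odd.mpr hodd)]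
    obtain ⟨j, hj⟩ := hodd
    have hhj : h = j := by omega
    have hmh : m - h = h + 1 := by omega
    have h5 : ∀ c : Fin (m - h) → k, eR π hm hbij ψ (π (pol c) * π (pol c)) =
        ψ (c ⟨h, by omega⟩ * c ⟨h, by omega⟩) := by
      intro c
      have hc : (pol c).natDegree ≤ h := by
        rw [natDegree_le_iff_coeff_eq_zero]
        intro i hi
        rw [pol_coeff, dif_neg (by omega)]
      rw [← map_mul, eR_pi π hm hbij ψ]
      · rw [show m - 1 = h + h by omega, coeff_mul_add_eq_of_natDegree_le hc hc, pol_coeff,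
          dif_pos (by omega)]
      · refine lt_of_le_of_lt (degree_le_natDegree) ?_
        have h6 : (pol c * pol c).natDegree ≤ h + h := natDegree_mul_le.trans (by omega)
        exact_mod_cast (by omega : (pol c * pol c).natDegree < m)
    rw [sum_congr rfl fun c _ => h5 c]
    have h6 : ∑ c : Fin (m - h) → k, ψ (c ⟨h, by omega⟩ * c ⟨h, by omega⟩) =
        ∑ c : Fin (m - h) → k, ∏ i, (if i = ⟨h, by omega⟩ then ψ (c i * c i) else 1) := by
      refine sum_congr rfl fun c _ => ?_
      rw [prod_ite_eq' univ _ (fun i => ψ (c i * c i)), if_pos (mem_univ _)]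
    rw [h6]
    have h7 : ∑ c : Fin (m - h) → k, ∏ i, (if i = ⟨h, by omega⟩ then ψ (c i * c i) else 1) =
        ∏ i : Fin (m - h), ∑ a : k, (if i = ⟨h, by omega⟩ then ψ (a * a) else 1) := by
      rw [Finset.prod_univ_sum, Fintype.piFinset_univ]
    rw [h7, ← mul_prod_erase univ _ (mem_univ (⟨h, by omega⟩ : Fin (m - h)))]
    have h8 : ∀ i ∈ univ.erase (⟨h, by omega⟩ : Fin (m - h)),
        ∑ a : k, (if i = ⟨h, by omega⟩ then ψ (a * a) else 1) = (Fintype.card k : ℂ) := by
      intro i hi
      rw [mem_erase] at hi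
      simp [hi.1]
    rw [prod_congr rfl h8, prod_const, card_erase_of_mem (mem_univ _), card_univ, Fintype.card_fin]
    simp only [if_true]
    rw [show m - h - 1 = h by omega, mul_comm]

end abs

end Pool.Agent.Q275.TW
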