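import Pool.Agent.Q275.TW.B

/-!
# Poisson summation for quadratic characters of polynomials
-/

set_option autoImplicit false
set_option linter.unusedSectionVars false

namespace Pool.Agent.Q275.TW

open Finset Polynomial Q282TW

section

variable {k : Type} [Field k] [Fintype k] (S : Finset k[X])

/-- reduction modulo all members of `S` -/
noncomputable def pp : k[X] →+* (∀ P : S, AdjoinRoot (P : k[X])) :=
  RingHom.pi fun P : S => AdjoinRoot.mk (P : k[X])

lemma pp_apply (A : k[X]) (P : S) : pp S A P = AdjoinRoot.mk (P : k[X]) A := rfl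

variable {S}

lemma finite_adj {P : k[X]} (hP : P.Monic) : Finite (AdjoinRoot P) ∧
    Nat.card (AdjoinRoot P) = Fintype.card k ^ P.natDegree := by
  have h1 : Module.Finite k (AdjoinRoot P) := (AdjoinRoot.powerBasis' hP).finite
  have h2 : Finite (AdjoinRoot P) := Module.finite_of_finite k
  refine ⟨h2, ?_⟩
  have : Fintype (AdjoinRoot P) := Fintype.ofFinite _
  rw [Nat.card_eq_fintype_card, Module.card_eq_pow_finrank (K := k),
    (AdjoinRoot.powerBasis' hP).finrank, AdjoinRoot.powerBasis'_dim]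

lemma monic_prod (hS : ∀ P ∈ S, Pr P) : (∏ P ∈ S, P).Monic ∧ (∏ P ∈ S, P).natDegree = dg S :=
  ⟨monic_prod_of_monic _ _ fun P hP => (hS P hP).1,
    natDegree_prod_of_monic _ _ fun P hP => (hS P hP).1⟩

lemma coprime_of_ne {P Q : k[X]} (hP : Pr P) (hQ : Pr Q) (h : P ≠ Q) : IsCoprime P Q := by
  rw [hP.2.coprime_iff_not_dvd]
  intro h1
  apply h
  have h2 : Associated P Q := hP.2.associated_of_dvd hQ.2 h1
  exact eq_of_monic_of_associated hP.1 hQ.1 h2

lemma pp_eq_zero (hS : ∀ P ∈ S, Pr P) {A : k[X]} (h : pp S A = 0) (hA : A.degree < dg S) :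
    A = 0 := by
  obtain ⟨hM, hdeg⟩ := monic_prod hS
  have h1 : (∏ P ∈ S, P) ∣ A := by
    apply Finset.prod_dvd_of_coprime
    · intro P hP Q hQ hne
      exact coprime_of_ne (hS P hP) (hS Q hQ) hne
    · intro P hP
      have h2 := congrFun h ⟨P, hP⟩
      rw [pp_apply] at h2
      exact AdjoinRoot.mk_eq_zero.mp h2
  by_contra hA0
  have h2 := natDegree_le_of_dvd h1 hA0
  rw [hdeg] at h2
  have h3 := (natDegree_lt_iff_degree_lt hA0).mpr hA
  omega

lemma bij (hS : ∀ P ∈ S, Pr P) [∀ P : S, Fintype (AdjoinRoot (P : k[X]))] :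
    Function.Bijective (fun c : Fin (dg S) → k => pp S (pol c)) := by
  classical
  rw [Fintype.bijective_iff_injective_and_card]
  constructor
  · intro c d h
    simp only at h
    have h1 : pol (c - d) = 0 := by
      apply pp_eq_zero hS _ (pol_degree _)
      have h2 : pol c = pol (c - d) + pol d := by rw [← pol_add, sub_add_cancel]
      rw [h2, map_add] at h
      exact add_eq_right.mp h
    funext i
    have h2 := congrArg (fun p : k[X] => p.coeff i) h1
    simp only [pol_coeff, coeff_zero] at h2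
    rw [dif_pos i.2] at h2
    exact sub_eq_zero.mp h2
  · rw [Fintype.card_fun, Fintype.card_fin, Fintype.card_pi]
    have h1 : ∀ P : S, Fintype.card (AdjoinRoot (P : k[X])) =
        Fintype.card k ^ (P : k[X]).natDegree := by
      intro P
      rw [← Nat.card_eq_fintype_card]
      exact (finite_adj (hS P P.2).1).2
    rw [prod_congr rfl fun P _ => h1 P, Finset.prod_coe_sort S
      (fun P : k[X] => Fintype.card k ^ P.natDegree), Finset.prod_pow_eq_pow_sum]
    rfl

open Classical in
lemma leg_eq {P : k[X]} [Fact (Irreducible P)] [Fintype (AdjoinRoot P)] [DecidableEq (AdjoinRoot P)]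
    (A : k[X]) : leg P A = quadraticChar (AdjoinRoot P) (AdjoinRoot.mk P A) := by
  rw [quadraticChar_apply, quadraticCharFun, leg]
  have h1 : P ∣ A ↔ AdjoinRoot.mk P A = 0 := AdjoinRoot.mk_eq_zero.symm
  have h2 : (∃ B : k[X], P ∣ A - B ^ 2) ↔ IsSquare (AdjoinRoot.mk P A) := by
    constructor
    · rintro ⟨B, hB⟩
      refine ⟨AdjoinRoot.mk P B, ?_⟩
      rw [← map_mul, ← sq]
      exact AdjoinRoot.mk_eq_mk.mpr hB
    · rintro ⟨r, hr⟩
      obtain ⟨B, rfl⟩ := AdjoinRoot.mk_surjective r
      refine ⟨B, ?_⟩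
      rw [← map_mul, ← sq] at hr
      exact AdjoinRoot.mk_eq_mk.mp hr
  by_cases h3 : P ∣ A
  · rw [if_pos h3, if_pos (h1.mp h3)]
  · rw [if_neg h3, if_neg (fun h => h3 (h1.mpr h))]
    by_cases h4 : ∃ B : k[X], P ∣ A - B ^ 2
    · rw [if_pos h4, if_pos (h2.mp h4)]
    · rw [if_neg h4, if_neg (fun h => h4 (h2.mpr h))]

lemma J_eq [∀ P : S, Fact (Irreducible (P : k[X]))] [∀ P : S, Fintype (AdjoinRoot (P : k[X]))]
    [∀ P : S, DecidableEq (AdjoinRoot (P : k[X]))] (A : k[X]) :
    (J S A : ℂ) = chi (pp S A) := by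
  rw [J, chi, Int.cast_prod, ← Finset.prod_coe_sort]
  refine prod_congr rfl fun P _ => ?_
  rw [pp_apply, leg_eq]

end

theorem pois : S_pois := by
  intro k _ _ h2
  classical
  obtain ⟨ψ, hψ1⟩ : ∃ ψ : AddChar k ℂ, ψ 1 ≠ 1 := AddChar.exists_apply_ne_zero.mpr one_ne_zero
  have hprim : ψ.IsPrimitive := AddChar.IsPrimitive.of_ne_one (fun h => hψ1 (by rw [h]; rfl))
  refine ⟨GG ψ, fun c => ψ (-c), ?_, fun c => AddChar.norm_apply ψ _, ?_⟩
  · intro m
    have hq : (0 : ℝ) ≤ Fintype.card k := Nat.cast_nonneg _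
    unfold GG
    rw [norm_mul, norm_pow, Complex.norm_natCast]
    rcases Nat.even_or_odd m with hev | hodd
    · obtain ⟨j, hj⟩ := hev
      rw [if_pos ⟨j, hj⟩, norm_one, mul_one]
      conv_rhs => rw [hj, ← two_mul, pow_mul, Real.sq_sqrt hq]
      rw [show m / 2 = j by omega]
    · rw [if_neg (Nat.not_even_iff_odd.mpr hodd), norm_gauss h2 ψ hprim]
      obtain ⟨j, hj⟩ := hodd
      conv_rhs => rw [hj, pow_succ, pow_mul, Real.sq_sqrt hq]
      rw [show m / 2 = j by omega]
  intro S hS n hn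
  have hirr : ∀ P : S, Fact (Irreducible (P : k[X])) := fun P => ⟨(hS P P.2).2⟩
  have hfin : ∀ P : S, Finite (AdjoinRoot (P : k[X])) := fun P => (finite_adj (hS P P.2).1).1
  have hft : ∀ P : S, Fintype (AdjoinRoot (P : k[X])) := fun P => Fintype.ofFinite _
  have hm : 0 < dg S := by omega
  set m := dg S with hmdef
  have hbij := bij hS
  set π := pp S with hπ
  set e := eR π hm hbij ψ with he
  have hF : ∀ P : S, ringChar (AdjoinRoot (P : k[X])) ≠ 2 := by
    intro P h
    have h3 : ((2 : ℕ) : AdjoinRoot (P : k[X])) = 0 := by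
      rw [← h]; exact ringChar.Nat.cast_ringChar
    apply h2
    have h4 : AdjoinRoot.of (P : k[X]) (2 : k) = 0 := by
      rw [map_ofNat]
      exact_mod_cast h3
    exact (map_eq_zero_iff _ (AdjoinRoot.of (P : k[X])).injective).mp h4
  have hsingle : ∀ P : S, ∃ a, e (Pi.single P a) ≠ 1 := by
    intro P
    by_contra hcon
    push Not at hcon
    obtain ⟨b, hb⟩ := hbij.2 (Pi.single P 1)
    have hY := pol_degree b
    have h4 := orth π hm hbij ⟨1, hψ1⟩ m 0 (by omega) (pol b) hY
    have h5 : ¬ (pol b).degree < ((0 : ℕ) : WithBot ℕ) := by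
      intro h6
      have h7 : pol b = 0 := by
        rw [← degree_eq_bot]
        by_contra h8
        have h9 : 0 ≤ (pol b).degree := zero_le_degree_iff.mpr (fun h => h8 (by rw [h, degree_zero]))
        exact absurd (lt_of_le_of_lt h9 h6) (by simp)
      simp only at hb
      rw [h7, map_zero] at hb
      have h10 := congrFun hb P
      rw [Pi.single_eq_same] at h10
      exact zero_ne_one h10
    rw [if_neg h5] at h4
    have h6 : ∀ V : Fin m → k, eR π hm hbij ψ (π (pol V) * π (pol b)) = 1 := by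
      intro V
      have h7 : π (pol b) = Pi.single P 1 := hb
      have h8 : π (pol V) * π (pol b) = Pi.single P (π (pol V) P) := by
        rw [h7]
        funext Q
        by_cases hQ : Q = P
        · subst hQ
          rw [Pi.mul_apply, Pi.single_eq_same, Pi.single_eq_same, mul_one]
        · rw [Pi.mul_apply, Pi.single_eq_of_ne hQ, Pi.single_eq_of_ne hQ, mul_zero]
      rw [h8]
      exact hcon _
    rw [sum_congr rfl fun V _ => h6 V] at h4
    simp at h4
  have hgauss := gauss hF e hsingle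
  have hsq := gauss_sq π hm hbij ⟨1, hψ1⟩ h2
  rw [← he] at hsq
  -- the expansion
  set a := m - n with ha
  have hq0 : (Fintype.card k : ℂ) ≠ 0 := by exact_mod_cast Fintype.card_ne_zero
  have hexp := expand π hm hbij ⟨1, hψ1⟩ a n (by omega) 1 one_ne_zero
    (fun y => chi (π (X ^ n) + y))
  have hL : ∀ c : Fin n → k, (J S (mon c) : ℂ) = chi (π (X ^ n) + π (pol c)) := by
    intro c
    rw [J_eq, mon, map_add]
  have hR : ∑ y, chi (π (X ^ n) + y) * ∑ V : Fin a → k, eR π hm hbij ψ (π (pol V) * (π (C 1) * y)) =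
      GG ψ m * ∑ V : Fin a → k, ψ (-((pol V).coeff (a - 1))) * (J S (pol V) : ℂ) := by
    simp only [mul_sum]
    rw [sum_comm]
    refine sum_congr rfl fun V _ => ?_
    have h4 : ∀ y, chi (π (X ^ n) + y) * eR π hm hbij ψ (π (pol V) * (π (C 1) * y)) =
        e (-(π (pol V * X ^ n))) * (chi (π (X ^ n) + y) * e (π (pol V) * (π (X ^ n) + y))) := by
      intro y
      have h5 : π (pol V) * (π (C 1) * y) =
          -(π (pol V * X ^ n)) + π (pol V) * (π (X ^ n) + y) := by
        rw [map_one C, map_one, map_mul]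
        ring
      rw [h5, ← he, AddChar.map_add_eq_mul]
      ring
    rw [sum_congr rfl fun y _ => h4 y, ← mul_sum]
    have h5 : ∑ y, chi (π (X ^ n) + y) * e (π (pol V) * (π (X ^ n) + y)) =
        ∑ y, chi y * e (π (pol V) * y) :=
      Fintype.sum_equiv (Equiv.addLeft (π (X ^ n))) _ _ (fun y => rfl)
    rw [h5, hgauss, hsq, ← J_eq, ← map_neg, he, eR_pi π hm hbij ψ]
    · rw [coeff_neg, coeff_mul_X_pow', if_pos (by omega), show m - 1 - n = a - 1 by omega]
      ring
    · rw [degree_neg]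
      have h6 := (mul_deg (a := a) (b := n + 1) (pol_degree V) (B := X ^ n)
        (by rw [degree_X_pow]; exact_mod_cast Nat.lt_succ_self n)).1
      by_cases hV : pol V = 0
      · rw [hV, zero_mul, degree_zero]
        exact WithBot.bot_lt_coe _
      · have h7 : (pol V).natDegree < a := (natDegree_lt_iff_degree_lt hV).mpr (pol_degree V)
        rw [← natDegree_lt_iff_degree_lt (mul_ne_zero hV (pow_ne_zero _ X_ne_zero)),
          natDegree_mul hV (pow_ne_zero _ X_ne_zero), natDegree_X_pow]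
        omega
  rw [hR] at hexp
  rw [sum_congr rfl fun c _ => hL c]
  have hqa : (Fintype.card k : ℂ) ^ a ≠ 0 := pow_ne_zero _ hq0
  apply mul_left_cancel₀ hqa
  rw [hexp]
  have h4 : (Fintype.card k : ℂ) ^ a * ((Fintype.card k : ℂ) ^ n / (Fintype.card k : ℂ) ^ m) = 1 := by
    rw [mul_div_assoc', ← pow_add, show a + n = m by omega]
    exact div_self (pow_ne_zero _ hq0)
  rw [← mul_assoc, ← mul_assoc, h4, one_mul]

end Pool.Agent.Q275.TW
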